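import Pool.Agent.Run7.h121.UM.Kron
set_option autoImplicit false
open Finset Polynomial

namespace Pool.Agent.Run7.h121.UM

lemma card_cube (q d : ℕ) : (Fintype.card (Fin (d + 1) → ZMod (q + 2)) : ℝ) = (q + 2 : ℝ) ^ (d + 1) := by
  rw [Fintype.card_fun, ZMod.card, Fintype.card_fin]; push_cast; rfl

lemma two_le_card (q d : ℕ) : 2 ≤ Fintype.card (Fin (d + 1) → ZMod (q + 2)) := by
  rw [Fintype.card_fun, ZMod.card, Fintype.card_fin]
  calc 2 ≤ (q + 2) ^ 1 := by rw [pow_one]; omega
    _ ≤ (q + 2) ^ (d + 1) := Nat.pow_le_pow_right (by omega) (by omega)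

lemma exponent_cases (q d : ℕ) (h : q + 2 = 2 ∨ q + 2 = 3 ∨ q + 2 = 4 ∨ q + 2 = 6) :
    (∀ g : Fin (d + 1) → ZMod (q + 2), 4 • g = 0) ∨ (∀ g : Fin (d + 1) → ZMod (q + 2), 6 • g = 0) := by
  rcases h with h | h | h | h
  · obtain rfl : q = 0 := by omega
    left; intro g; funext i
    have : ∀ x : ZMod (0 + 2), 4 • x = 0 := by decide
    exact this (g i)
  · obtain rfl : q = 1 := by omega
    right; intro g; funext i
    have : ∀ x : ZMod (1 + 2), 6 • x = 0 := by decide
    exact this (g i)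
  · obtain rfl : q = 2 := by omega
    left; intro g; funext i
    have : ∀ x : ZMod (2 + 2), 4 • x = 0 := by decide
    exact this (g i)
  · obtain rfl : q = 4 := by omega
    right; intro g; funext i
    have : ∀ x : ZMod (4 + 2), 6 • x = 0 := by decide
    exact this (g i)

/-- roots of a rational polynomial of degree at most two with an irrational or rational real root -/
lemma real_of_degree_two (y : ℝ) (hy : IsIntegral ℚ y) (hd : (minpoly ℚ y).natDegree ≤ 2) (x : ℂ)
    (hx : aeval x (minpoly ℚ y) = 0) : x.im = 0 := by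
  have h1 := minpoly.aeval ℚ y
  rw [aeval_eq_sum_range' (Nat.lt_succ_of_le hd)] at h1 hx
  simp only [Finset.sum_range_succ, Finset.sum_range_zero, pow_zero, pow_one, zero_add,
    Algebra.smul_def, mul_one, eq_ratCast] at h1 hx
  obtain ⟨a, ha⟩ : ∃ a : ℚ, a = (minpoly ℚ y).coeff 2 := ⟨_, rfl⟩
  obtain ⟨b, hb⟩ : ∃ b : ℚ, b = (minpoly ℚ y).coeff 1 := ⟨_, rfl⟩
  obtain ⟨c, hc⟩ : ∃ c : ℚ, c = (minpoly ℚ y).coeff 0 := ⟨_, rfl⟩
  rw [← ha, ← hb, ← hc] at h1 hx
  have h1c : (c : ℂ) + b * (y : ℂ) + a * (y : ℂ) ^ 2 = 0 := by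
    have := congrArg (fun r : ℝ => (r : ℂ)) h1
    push_cast at this
    exact this
  have h2 : (x - y) * (a * (x + y) + b) = 0 := by linear_combination hx - h1c
  rcases mul_eq_zero.mp h2 with h | h
  · rw [sub_eq_zero.mp h]; simp
  · by_cases ha0 : a = 0
    · exfalso
      rw [ha0] at h h1
      have hb0 : b = 0 := by
        have : (b : ℂ) = 0 := by simpa using h
        exact_mod_cast this
      rw [hb0] at h1
      have hc0 : c = 0 := by
        have : (c : ℝ) = 0 := by simpa using h1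
        exact_mod_cast this
      have hne := minpoly.ne_zero hy
      apply hne
      ext i
      rw [coeff_zero]
      rcases Nat.lt_or_ge i 3 with hi | hi
      · interval_cases i
        · rw [← hc]; exact hc0
        · rw [← hb]; exact hb0
        · rw [← ha]; exact ha0
      · exact coeff_eq_zero_of_natDegree_lt (by omega)
    · have ha' : (a : ℂ) ≠ 0 := by exact_mod_cast ha0
      have h3 : x = (((-(b : ℝ) / a) - y : ℝ) : ℂ) := by
        push_cast
        field_simp
        linear_combination h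
      rw [h3]; exact Complex.ofReal_im _

lemma cos_four_integral (t : ℝ) (h : IsIntegral ℤ (Complex.exp (Complex.I * t))) :
    IsIntegral ℚ (Real.cos (4 * t)) := by
  have h1 : IsIntegral ℤ (Complex.exp (Complex.I * (-t))) := by
    have : Complex.exp (Complex.I * (-t)) = (starRingEnd ℂ) (Complex.exp (Complex.I * t)) := by
      rw [← Complex.exp_conj]; simp
    rw [this]
    exact h.map (Complex.conjAe.restrictScalars ℤ)
  have h2 : Complex.cos ((4 * t : ℝ) : ℂ)
      = algebraMap ℚ ℂ (1 / 2) * (Complex.exp (Complex.I * t) ^ 4 + Complex.exp (Complex.I * (-t)) ^ 4) := by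
    have h3 := Complex.two_cos (((4 * t : ℝ) : ℂ))
    rw [← Complex.exp_nat_mul, ← Complex.exp_nat_mul]
    have e1 : ((4 : ℕ) : ℂ) * (Complex.I * t) = ((4 * t : ℝ) : ℂ) * Complex.I := by push_cast; ring
    have e2 : ((4 : ℕ) : ℂ) * (Complex.I * (-t)) = -((4 * t : ℝ) : ℂ) * Complex.I := by push_cast; ring
    rw [e1, e2, ← h3]
    have : algebraMap ℚ ℂ (1 / 2) = 1 / 2 := by simp
    rw [this]; ring
  have h4 : IsIntegral ℚ (algebraMap ℝ ℂ (Real.cos (4 * t))) := by
    have e : algebraMap ℝ ℂ (Real.cos (4 * t)) = Complex.cos ((4 * t : ℝ) : ℂ) := by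
      rw [← Complex.ofReal_cos]; rfl
    rw [e, h2]
    have hQ : IsIntegral ℚ (Complex.exp (Complex.I * t)) := h.tower_top
    have hQ1 : IsIntegral ℚ (Complex.exp (Complex.I * (-t))) := h1.tower_top
    exact isIntegral_algebraMap.mul ((hQ.pow 4).add (hQ1.pow 4))
  exact (isIntegral_algebraMap_iff (algebraMap ℝ ℂ).injective).mp h4

end Pool.Agent.Run7.h121.UM
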