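import Pool.Agent.Run7.h121.UM.Concrete
set_option autoImplicit false
open Finset

namespace Pool.Agent.Run7.h121.UM

variable {G : Type} [AddCommGroup G] [Fintype G] [DecidableEq G]

lemma pair_sum (hG : ∀ g : G, g + g = 0) (T : Finset G) (hT : T.card = 2) : ∑ c ∈ T, c ≠ 0 := by
  obtain ⟨a, b, hab, rfl⟩ := Finset.card_eq_two.mp hT
  rw [Finset.sum_pair hab]
  intro h
  apply hab
  have h2 := hG b
  have : a + b = b + b := by rw [h, h2]
  exact add_right_cancel this

/-- at most six elements of the connection set outside the kernel of a nontrivial character -/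
theorem small_hyperplane (hG : ∀ g : G, g + g = 0) (C : Finset G) (θ : AddChar G ℂ → ℤ)
    (hθ : ∀ ψ : AddChar G ℂ, (∑ c ∈ C, ψ c) = (θ ψ : ℂ)) (t : ℝ)
    (hU : ∀ y, ‖(NormedSpace.exp ((Complex.I * (t : ℂ)) • adj C)) 0 y‖ ^ 2
      = 1 / (Fintype.card G : ℝ)) (χ : AddChar G ℂ) (hχ : χ ≠ 0)
    (hm : (C.filter (fun c => χ c = -1)).card ≤ 6) : ∃ k : ℤ, t = k * (Real.pi / 8) := by
  classical
  have hcor := correlation_zero C θ hθ t hU χ hχ
  obtain ⟨z, hz⟩ : ∃ z, z = Complex.exp (Complex.I * t) := ⟨_, rfl⟩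
  rw [← hz] at hcor
  have hz0 : z ≠ 0 := by rw [hz]; exact Complex.exp_ne_zero _
  rw [correlation_expand hG C θ hθ χ z hz0] at hcor
  have hn0 : (Fintype.card G : ℂ) ≠ 0 := by exact_mod_cast Fintype.card_ne_zero
  have h1 := (mul_eq_zero.mp hcor).resolve_left hn0
  clear hcor
  obtain ⟨D, hD⟩ : ∃ D, D = C.filter (fun c => χ c = -1) := ⟨_, rfl⟩
  rw [← hD] at h1 hm
  obtain ⟨α, hα⟩ : ∃ α, α = (z ^ 2 + (z ^ 2)⁻¹) / 2 := ⟨_, rfl⟩
  obtain ⟨β, hβ⟩ : ∃ β, β = ((z ^ 2)⁻¹ - z ^ 2) / 2 := ⟨_, rfl⟩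
  rw [← hα, ← hβ] at h1
  have hz2 : z ^ 2 = Complex.exp (((2 * t : ℝ) : ℂ) * Complex.I) := by
    rw [hz, ← Complex.exp_nat_mul]; congr 1; push_cast; ring
  have hα' : α = ((Real.cos (2 * t) : ℝ) : ℂ) := by
    rw [hα, hz2, ← Complex.exp_neg, Complex.ofReal_cos]
    have h3 := Complex.two_cos (((2 * t : ℝ) : ℂ))
    rw [show -((((2 * t : ℝ) : ℂ)) * Complex.I) = -(((2 * t : ℝ) : ℂ)) * Complex.I by ring, ← h3]
    ring
  have hβ2 : β ^ 2 = (((-(Real.sin (2 * t)) ^ 2 : ℝ)) : ℂ) := by
    have e1 : β ^ 2 = α ^ 2 - 1 := by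
      rw [hα, hβ]; field_simp; ring
    rw [e1, hα']
    have := Real.sin_sq_add_cos_sq (2 * t)
    have e2 : -(Real.sin (2 * t)) ^ 2 = Real.cos (2 * t) ^ 2 - 1 := by linarith
    rw [e2]; push_cast; ring
  obtain ⟨F, hF⟩ : ∃ F, F = D.powerset.filter (fun T => ∑ c ∈ T, c = 0) := ⟨_, rfl⟩
  rw [← hF] at h1
  have hFmem : ∀ T, T ∈ F ↔ T ⊆ D ∧ ∑ c ∈ T, c = 0 := by
    intro T; rw [hF, Finset.mem_filter, Finset.mem_powerset]
  have hcard : ∀ T ∈ F, T.card = 0 ∨ T.card = 4 ∨ T.card = 6 := by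
    intro T hT
    obtain ⟨hT1, hT2⟩ := (hFmem T).mp hT
    have hle := (Finset.card_le_card hT1).trans hm
    have hone : ∀ c ∈ T, χ c = -1 := by
      intro c hc
      have := hT1 hc
      rw [hD] at this
      exact (Finset.mem_filter.mp this).2
    have e1 : χ (∑ c ∈ T, c) = (-1) ^ T.card := by
      rw [char_sum, Finset.prod_congr rfl hone, Finset.prod_const]
    rw [hT2, AddChar.map_zero_eq_one] at e1
    have hev : Even T.card := by
      by_contra hodd
      rw [Nat.not_even_iff_odd] at hodd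
      rw [hodd.neg_one_pow] at e1
      norm_num at e1
    have h2 : T.card ≠ 2 := fun h => pair_sum hG T h hT2
    obtain ⟨r, hr⟩ := hev
    omega
  have hempty : (∅ : Finset G) ∈ F := (hFmem ∅).mpr ⟨Finset.empty_subset _, by simp⟩
  by_cases hsix : ∃ T ∈ F, T.card = 6
  · obtain ⟨T, hT, hT6⟩ := hsix
    obtain ⟨hT1, hT2⟩ := (hFmem T).mp hT
    have hTD : T = D := Finset.eq_of_subset_of_card_le hT1 (by omega)
    have hFeq : F = {∅, D} := by
      ext S
      rw [Finset.mem_insert, Finset.mem_singleton]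
      constructor
      · intro hS
        obtain ⟨hS1, hS2⟩ := (hFmem S).mp hS
        rcases hcard S hS with h | h | h
        · left; exact Finset.card_eq_zero.mp h
        · exfalso
          refine pair_sum hG (D \ S) ?_ ?_
          · rw [Finset.card_sdiff_of_subset hS1, h, ← hTD, hT6]
          · have := Finset.sum_sdiff hS1 (f := fun c : G => c)
            rw [hS2, add_zero, ← hTD, hT2] at this
            rw [← hTD]; exact this
        · right; exact Finset.eq_of_subset_of_card_le hS1 (by rw [h]; exact hm)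
      · rintro (rfl | rfl)
        · exact hempty
        · rw [← hTD]; exact hT
    have hD6 : D.card = 6 := by rw [← hTD]; exact hT6
    have hne : (∅ : Finset G) ≠ D := by
      intro h; rw [← h] at hD6; simp at hD6
    rw [hFeq, Finset.sum_pair hne, hD6] at h1
    simp only [Finset.card_empty, Nat.sub_zero, pow_zero, mul_one, Nat.sub_self, one_mul] at h1
    have h2 : (Real.cos (2 * t)) ^ 6 - (Real.sin (2 * t)) ^ 6 = 0 := by
      have h3 : β ^ 6 = (((-(Real.sin (2 * t)) ^ 2 : ℝ)) : ℂ) ^ 3 := by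
        rw [← hβ2]; ring
      rw [h3, hα'] at h1
      have h4 : (((Real.cos (2 * t)) ^ 6 + (-(Real.sin (2 * t)) ^ 2) ^ 3 : ℝ) : ℂ) = 0 := by
        push_cast; push_cast at h1; exact h1
      have h5 := Complex.ofReal_eq_zero.mp h4
      linarith [h5, show (-(Real.sin (2 * t)) ^ 2) ^ 3 = -(Real.sin (2 * t)) ^ 6 by ring]
    have h3 : Real.cos (4 * t) = 0 := by
      have e1 : Real.cos (4 * t) = Real.cos (2 * t) ^ 2 - Real.sin (2 * t) ^ 2 := by
        rw [show 4 * t = 2 * (2 * t) by ring, Real.cos_two_mul']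
      have e2 : (Real.cos (2 * t) ^ 2 - Real.sin (2 * t) ^ 2) *
          (Real.cos (2 * t) ^ 4 + Real.cos (2 * t) ^ 2 * Real.sin (2 * t) ^ 2 + Real.sin (2 * t) ^ 4) = 0 := by
        rw [← h2]; ring
      rcases mul_eq_zero.mp e2 with h | h
      · rw [e1]; exact h
      · exfalso
        have e3 := Real.sin_sq_add_cos_sq (2 * t)
        nlinarith [sq_nonneg (Real.cos (2 * t) ^ 2 - Real.sin (2 * t) ^ 2), sq_nonneg (Real.cos (2 * t)),
          sq_nonneg (Real.sin (2 * t)), mul_nonneg (sq_nonneg (Real.cos (2 * t))) (sq_nonneg (Real.sin (2 * t)))]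
    obtain ⟨k, hk⟩ := Real.cos_eq_zero_iff.mp h3
    refine ⟨2 * k + 1, ?_⟩
    push_cast
    linarith
  · have hcard' : ∀ T ∈ F, T.card = 0 ∨ T.card = 4 := by
      intro T hT
      rcases hcard T hT with h | h | h
      · exact Or.inl h
      · exact Or.inr h
      · exact absurd ⟨T, hT, h⟩ hsix
    have hc0 : Real.cos (2 * t) = 0 := by
      by_contra hc
      have hα0 : α ≠ 0 := by rw [hα']; exact_mod_cast hc
      by_cases hD4 : D.card < 4
      · have hF1 : F = {∅} := by
          ext S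
          rw [Finset.mem_singleton]
          constructor
          · intro hS
            rcases hcard' S hS with h | h
            · exact Finset.card_eq_zero.mp h
            · have := Finset.card_le_card ((hFmem S).mp hS).1
              omega
          · rintro rfl; exact hempty
        rw [hF1, Finset.sum_singleton] at h1
        simp only [Finset.card_empty, Nat.sub_zero, pow_zero, mul_one] at h1
        exact pow_ne_zero _ hα0 h1
      · have hterm : ∀ T ∈ F, α ^ (D.card - T.card) * β ^ T.card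
            = α ^ (D.card - 4) * (((if T.card = 0 then Real.cos (2 * t) ^ 4 else Real.sin (2 * t) ^ 4 : ℝ)) : ℂ) := by
          intro T hT
          rcases hcard' T hT with h | h
          · rw [h, if_pos rfl, show D.card - 0 = (D.card - 4) + 4 by omega, pow_add, hα']
            push_cast; ring
          · rw [h, if_neg (by norm_num), show β ^ 4 = (β ^ 2) ^ 2 by ring, hβ2]
            push_cast; ring
        rw [Finset.sum_congr rfl hterm, ← Finset.mul_sum, ← Complex.ofReal_sum] at h1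
        have h2 := (mul_eq_zero.mp h1).resolve_left (pow_ne_zero _ hα0)
        have h3 := Complex.ofReal_eq_zero.mp h2
        have h4 : 0 < ∑ T ∈ F, (if T.card = 0 then Real.cos (2 * t) ^ 4 else Real.sin (2 * t) ^ 4 : ℝ) := by
          refine Finset.sum_pos' (fun T _ => ?_) ⟨∅, hempty, ?_⟩
          · split_ifs <;> positivity
          · rw [if_pos Finset.card_empty]; positivity
        linarith
    obtain ⟨k, hk⟩ := Real.cos_eq_zero_iff.mp hc0
    refine ⟨2 * (2 * k + 1), ?_⟩
    push_cast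
    linarith

lemma small_of_eigenvalue (hG : ∀ g : G, g + g = 0) (C : Finset G) (χ : AddChar G ℂ)
    (h : (C.card : ℝ) - 12 ≤ (∑ c ∈ C, χ c).re) : (C.filter (fun c => χ c = -1)).card ≤ 6 := by
  classical
  have hM : (((C.filter (fun c => χ c = -1)).card : ℕ) : ℝ) = ∑ c ∈ C, (1 - (χ c).re) / 2 := by
    rw [Finset.card_filter]
    push_cast
    refine Finset.sum_congr rfl fun c _ => ?_
    rcases char_sign hG χ c with h | h
    · rw [h, if_neg (by norm_num)]; simp
    · rw [h, if_pos rfl]; simp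
  have h2 : (((C.filter (fun c => χ c = -1)).card : ℕ) : ℝ) ≤ 6 := by
    rw [hM, ← Finset.sum_div, Finset.sum_sub_distrib]
    rw [Complex.re_sum] at h
    simp only [Finset.sum_const, nsmul_eq_mul, mul_one]
    linarith
  exact_mod_cast h2

/-- averaging over characters -/
theorem exists_small (hG : ∀ g : G, g + g = 0) (C : Finset G) (h0 : (0 : G) ∉ C) (hC : C.card ≤ 13)
    (hn : 2 ≤ Fintype.card G) (hn14 : Fintype.card G ≠ 14) :
    ∃ χ : AddChar G ℂ, χ ≠ 0 ∧ (C.filter (fun c => χ c = -1)).card ≤ 6 := by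
  classical
  by_contra hcon
  push Not at hcon
  have hM : ∀ χ : AddChar G ℂ, (((C.filter (fun c => χ c = -1)).card : ℕ) : ℂ) = ∑ c ∈ C, (1 - χ c) / 2 := by
    intro χ
    rw [Finset.card_filter]
    push_cast
    refine Finset.sum_congr rfl fun c _ => ?_
    rcases char_sign hG χ c with h | h
    · rw [h, if_neg (by norm_num)]; ring
    · rw [h, if_pos rfl]; ring
  have hsum : (∑ χ : AddChar G ℂ, (((C.filter (fun c => χ c = -1)).card : ℕ) : ℂ))
      = (C.card : ℂ) * (Fintype.card G : ℂ) / 2 := by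
    simp_rw [hM]
    rw [Finset.sum_comm]
    have : ∀ c ∈ C, (∑ χ : AddChar G ℂ, (1 - χ c) / 2) = (Fintype.card G : ℂ) / 2 := by
      intro c hc
      have hc0 : c ≠ 0 := by rintro rfl; exact h0 hc
      rw [← Finset.sum_div, Finset.sum_sub_distrib, AddChar.sum_apply_eq_ite, if_neg hc0]
      simp [AddChar.card_eq]
    rw [Finset.sum_congr rfl this, Finset.sum_const, nsmul_eq_mul]; ring
  have hsumN : 2 * (∑ χ : AddChar G ℂ, (C.filter (fun c => χ c = -1)).card) = C.card * Fintype.card G := by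
    have : (2 : ℂ) * (∑ χ : AddChar G ℂ, (((C.filter (fun c => χ c = -1)).card : ℕ) : ℂ))
        = (C.card : ℂ) * (Fintype.card G : ℂ) := by rw [hsum]; ring
    exact_mod_cast this
  have hlow : 7 * (Fintype.card G - 1) ≤ ∑ χ : AddChar G ℂ, (C.filter (fun c => χ c = -1)).card := by
    have h1 : (∑ χ ∈ (Finset.univ : Finset (AddChar G ℂ)).erase 0, 7)
        ≤ ∑ χ ∈ (Finset.univ : Finset (AddChar G ℂ)).erase 0, (C.filter (fun c => χ c = -1)).card :=
      Finset.sum_le_sum fun χ hχ => hcon χ (Finset.ne_of_mem_erase hχ)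
    have h2 : (∑ χ ∈ (Finset.univ : Finset (AddChar G ℂ)).erase 0, (C.filter (fun c => χ c = -1)).card)
        ≤ ∑ χ : AddChar G ℂ, (C.filter (fun c => χ c = -1)).card :=
      Finset.sum_le_sum_of_subset (Finset.erase_subset _ _)
    rw [Finset.sum_const, Finset.card_erase_of_mem (Finset.mem_univ _), Finset.card_univ,
      AddChar.card_eq, smul_eq_mul] at h1
    omega
  have hC' : C.card ≤ Fintype.card G - 1 := by
    have : C ⊆ Finset.univ.erase 0 := fun c hc =>
      Finset.mem_erase.mpr ⟨by rintro rfl; exact h0 hc, Finset.mem_univ _⟩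
    have := Finset.card_le_card this
    rw [Finset.card_erase_of_mem (Finset.mem_univ _), Finset.card_univ] at this
    exact this
  have h3 : 14 * (Fintype.card G - 1) ≤ C.card * Fintype.card G := by omega
  obtain ⟨n, hnn⟩ : ∃ n, Fintype.card G = n + 1 := ⟨Fintype.card G - 1, by omega⟩
  rw [hnn] at h3 hC' hn14 hn
  simp only [Nat.add_sub_cancel] at h3 hC'
  have h4 : 14 * n ≤ 13 * (n + 1) := h3.trans (Nat.mul_le_mul_right _ hC)
  have h5 : 14 * n ≤ n * (n + 1) := h3.trans (Nat.mul_le_mul_right _ hC')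
  have h6 : n ≤ 13 := by omega
  have h7 : 14 ≤ n + 1 := by
    by_contra h
    have h8 : n + 1 ≤ 13 := by omega
    have h9 : n * (n + 1) ≤ n * 13 := Nat.mul_le_mul_left _ h8
    omega
  omega

end Pool.Agent.Run7.h121.UM
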