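import Pool.Agent.Run7.h121.UM.Unit
set_option autoImplicit false
open Finset

namespace Pool.Agent.Run7.h121.UM

/-- the sum of a root of unity of order dividing 4 or 6 and its inverse is an integer -/
lemma two_re_int (x : ℂ) (h : x ^ 4 = 1 ∨ x ^ 6 = 1) : ∃ m : ℤ, x + x⁻¹ = m := by
  have hx : x ≠ 0 := by
    rintro rfl
    rcases h with h | h <;> simp at h
  rcases h with h | h
  · have h1 : (x - 1) * ((x + 1) * (x ^ 2 + 1)) = 0 := by ring_nf; rw [h]; ring
    rcases mul_eq_zero.mp h1 with h2 | h2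
    · exact ⟨2, by rw [sub_eq_zero.mp h2]; norm_num⟩
    rcases mul_eq_zero.mp h2 with h3 | h3
    · exact ⟨-2, by rw [eq_neg_of_add_eq_zero_left h3]; norm_num⟩
    · refine ⟨0, ?_⟩
      field_simp
      push_cast
      linear_combination h3
  · have h1 : ((x - 1) * (x ^ 2 + x + 1)) * ((x + 1) * (x ^ 2 - x + 1)) = 0 := by ring_nf; rw [h]; ring
    rcases mul_eq_zero.mp h1 with h2 | h2
    · rcases mul_eq_zero.mp h2 with h3 | h3
      · exact ⟨2, by rw [sub_eq_zero.mp h3]; norm_num⟩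
      · refine ⟨-1, ?_⟩
        field_simp
        push_cast
        linear_combination h3
    · rcases mul_eq_zero.mp h2 with h3 | h3
      · exact ⟨-2, by rw [eq_neg_of_add_eq_zero_left h3]; norm_num⟩
      · refine ⟨1, ?_⟩
        field_simp
        push_cast
        linear_combination h3

variable {G : Type} [AddCommGroup G] [Fintype G] [DecidableEq G]

/-- eigenvalues are integers when the group has exponent dividing 4 or 6 -/
lemma eigen_int (C : Finset G) (hC : ∀ c ∈ C, -c ∈ C) (hG : (∀ g : G, 4 • g = 0) ∨ (∀ g : G, 6 • g = 0))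
    (ψ : AddChar G ℂ) : ∃ m : ℤ, (∑ c ∈ C, ψ c) = m := by
  classical
  have hpow : ∀ g : G, ψ g ^ 4 = 1 ∨ ψ g ^ 6 = 1 := by
    intro g
    rcases hG with h | h
    · left; rw [← AddChar.map_nsmul_eq_pow, h, AddChar.map_zero_eq_one]
    · right; rw [← AddChar.map_nsmul_eq_pow, h, AddChar.map_zero_eq_one]
  choose m hm using fun g : G => two_re_int (ψ g) (hpow g)
  have hneg : (∑ c ∈ C, ψ c) = ∑ c ∈ C, (ψ c)⁻¹ := by
    refine Finset.sum_nbij' (fun c => -c) (fun c => -c) (fun c hc => hC c hc) (fun c hc => hC c hc)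
      (fun c _ => neg_neg c) (fun c _ => neg_neg c) ?_
    intro c _
    rw [AddChar.map_neg_eq_inv, inv_inv]
  have h2 : 2 * (∑ c ∈ C, ψ c) = ((∑ c ∈ C, m c : ℤ) : ℂ) := by
    rw [two_mul]
    conv_lhs => rw [hneg]
    rw [← hneg]
    rw [show (∑ c ∈ C, ψ c) + (∑ c ∈ C, ψ c) = (∑ c ∈ C, ψ c) + ∑ c ∈ C, (ψ c)⁻¹ by rw [← hneg]]
    rw [← Finset.sum_add_distrib]
    push_cast
    exact Finset.sum_congr rfl fun c _ => hm c
  have hint : IsIntegral ℤ (∑ c ∈ C, ψ c) := IsIntegral.sum _ fun c _ => char_integral ψ c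
  obtain ⟨r, hr⟩ : ∃ r : ℚ, r = (∑ c ∈ C, m c : ℤ) / 2 := ⟨_, rfl⟩
  have hrc : (∑ c ∈ C, ψ c) = ((r : ℚ) : ℂ) := by
    rw [hr]; push_cast
    have : ((∑ c ∈ C, m c : ℤ) : ℂ) = ∑ c ∈ C, ((m c : ℤ) : ℂ) := by push_cast; rfl
    rw [← this, ← h2]; ring
  have hri : IsIntegral ℤ r := by
    rw [hrc] at hint
    have : IsIntegral ℤ (algebraMap ℚ ℂ r) := by simpa using hint
    exact (isIntegral_algebraMap_iff (algebraMap ℚ ℂ).injective).mp this
  obtain ⟨k, hk⟩ := IsIntegrallyClosed.isIntegral_iff.mp hri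
  refine ⟨k, ?_⟩
  rw [hrc, ← hk]; simp

/-- rational 2 cos t that is integral over the integers -/
lemma rational_time (t : ℝ) (h : IsIntegral ℤ (Complex.exp (Complex.I * t))) (r : ℚ)
    (hr : Real.cos t = r) : ∃ s : ℚ, t = (s : ℝ) * Real.pi := by
  have h1 : IsIntegral ℤ (Complex.exp (Complex.I * (-t))) := by
    have : Complex.exp (Complex.I * (-t)) = (starRingEnd ℂ) (Complex.exp (Complex.I * t)) := by
      rw [← Complex.exp_conj]; simp
    rw [this]
    exact h.map (Complex.conjAe.restrictScalars ℤ)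
  have h2 : ((2 * r : ℚ) : ℂ) = Complex.exp (Complex.I * t) + Complex.exp (Complex.I * (-t)) := by
    have h3 := Complex.two_cos (t : ℂ)
    have h4 : Complex.cos (t : ℂ) = ((r : ℚ) : ℂ) := by
      rw [← Complex.ofReal_cos, hr]; simp
    rw [h4] at h3
    push_cast
    rw [h3]
    congr 1
    · rw [mul_comm]
    · congr 1; ring
  have h3 : IsIntegral ℤ (2 * r : ℚ) := by
    have : IsIntegral ℤ (algebraMap ℚ ℂ (2 * r : ℚ)) := by
      have h5 : algebraMap ℚ ℂ (2 * r : ℚ) = ((2 * r : ℚ) : ℂ) := rfl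
      rw [h5, h2]; exact h.add h1
    exact (isIntegral_algebraMap_iff (algebraMap ℚ ℂ).injective).mp this
  obtain ⟨m, hm⟩ := IsIntegrallyClosed.isIntegral_iff.mp h3
  have hm' : (m : ℝ) = 2 * Real.cos t := by
    rw [hr]
    have : (m : ℚ) = 2 * r := by simpa using hm
    exact_mod_cast this
  have hb1 : m ≤ 2 := by
    have := Real.cos_le_one t
    have : (m : ℝ) ≤ 2 := by linarith
    exact_mod_cast this
  have hb2 : -2 ≤ m := by
    have := Real.neg_one_le_cos t
    have : (-2 : ℝ) ≤ m := by linarith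
    exact_mod_cast this
  have key : ∃ s : ℚ, Real.cos t = Real.cos ((s : ℝ) * Real.pi) := by
    have hc : Real.cos t = m / 2 := by rw [hm']; ring
    rw [hc]
    interval_cases m
    · exact ⟨1, by push_cast; rw [one_mul, Real.cos_pi]; norm_num⟩
    · refine ⟨2 / 3, ?_⟩
      push_cast
      rw [show (2 / 3 : ℝ) * Real.pi = Real.pi - Real.pi / 3 by ring, Real.cos_pi_sub, Real.cos_pi_div_three]
      norm_num
    · refine ⟨1 / 2, ?_⟩
      push_cast
      rw [show (1 / 2 : ℝ) * Real.pi = Real.pi / 2 by ring, Real.cos_pi_div_two]; norm_num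
    · refine ⟨1 / 3, ?_⟩
      push_cast
      rw [show (1 / 3 : ℝ) * Real.pi = Real.pi / 3 by ring, Real.cos_pi_div_three]
    · exact ⟨0, by push_cast; rw [zero_mul, Real.cos_zero]; norm_num⟩
  obtain ⟨s, hs⟩ := key
  obtain ⟨k, hk⟩ := Real.cos_eq_cos_iff.mp hs
  rcases hk with hk | hk
  · exact ⟨s - 2 * k, by push_cast; linarith⟩
  · exact ⟨2 * k - s, by push_cast; linarith⟩

end Pool.Agent.Run7.h121.UM
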