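import Pool.Agent.Run7.h121.UM.Two
import Pool.Agent.Run7.h121.UM.Small
set_option autoImplicit false
open Finset Polynomial

namespace Pool.Agent.Run7.h121.UM

variable {G : Type} [AddCommGroup G] [Fintype G] [DecidableEq G]

/-- the autocorrelations of the phase function vanish at a uniform mixing time -/
theorem correlation_zero (C : Finset G) (θ : AddChar G ℂ → ℤ)
    (hθ : ∀ ψ : AddChar G ℂ, (∑ c ∈ C, ψ c) = (θ ψ : ℂ)) (t : ℝ)
    (hU : ∀ y, ‖(NormedSpace.exp ((Complex.I * (t : ℂ)) • adj C)) 0 y‖ ^ 2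
      = 1 / (Fintype.card G : ℝ)) (χ : AddChar G ℂ) (hχ : χ ≠ 0) :
    (∑ ψ : AddChar G ℂ, (Complex.exp (Complex.I * t)) ^ (θ (ψ + χ) - θ ψ)) = 0 := by
  classical
  have hn0 : (Fintype.card G : ℂ) ≠ 0 := by exact_mod_cast Fintype.card_ne_zero
  obtain ⟨z, hz⟩ : ∃ z, z = Complex.exp (Complex.I * t) := ⟨_, rfl⟩
  rw [← hz]
  have hz0 : z ≠ 0 := by rw [hz]; exact Complex.exp_ne_zero _
  have hzn : ‖z‖ = 1 := by rw [hz, mul_comm]; exact Complex.norm_exp_ofReal_mul_I t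
  have hexp : ∀ m : ℤ, Complex.exp (Complex.I * t * m) = z ^ m := by
    intro m
    rw [hz, ← Complex.exp_int_mul, mul_comm]
  obtain ⟨u, hu⟩ : ∃ u : G → ℂ, u = fun y => (NormedSpace.exp ((Complex.I * (t : ℂ)) • adj C)) 0 y := ⟨_, rfl⟩
  have hun : ∀ y, ‖u y‖ ^ 2 = 1 / (Fintype.card G : ℝ) := by intro y; rw [hu]; exact hU y
  have htr : ∀ ψ : AddChar G ℂ, (∑ y, u y * ψ y) = z ^ (θ ψ) := by
    intro ψ
    have := row_transform C t ψ
    rw [hθ ψ, hexp] at this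
    rw [hu]; exact this
  have hinv : ∀ y, (∑ ψ : AddChar G ℂ, ψ (-y) * z ^ (θ ψ)) = (Fintype.card G : ℂ) * u y := by
    intro y
    have e1 : (∑ ψ : AddChar G ℂ, ψ (-y) * z ^ (θ ψ)) = ∑ x, u x * ∑ ψ : AddChar G ℂ, ψ (x - y) := by
      simp_rw [← htr, Finset.mul_sum]
      rw [Finset.sum_comm]
      refine Finset.sum_congr rfl fun x _ => Finset.sum_congr rfl fun ψ _ => ?_
      rw [sub_eq_add_neg, AddChar.map_add_eq_mul]; ring
    rw [e1]
    simp_rw [AddChar.sum_apply_eq_ite, sub_eq_zero]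
    simp [mul_comm]
  have hzc : ∀ m : ℤ, (starRingEnd ℂ) (z ^ m) = z ^ (-m) := by
    intro m
    rw [map_zpow₀, ← Complex.inv_eq_conj hzn, inv_zpow, zpow_neg]
  have hQ : ∀ y, (∑ ψ : AddChar G ℂ, ψ y * z ^ (-(θ ψ))) = (Fintype.card G : ℂ) * (starRingEnd ℂ) (u y) := by
    intro y
    have h1 := congrArg (starRingEnd ℂ) (hinv y)
    rw [map_mul, Complex.conj_natCast] at h1
    rw [← h1, map_sum]
    refine Finset.sum_congr rfl fun ψ _ => ?_
    rw [map_mul, hzc, ← AddChar.map_neg_eq_conj, neg_neg]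
  have e1 : (∑ ψ : AddChar G ℂ, z ^ (θ (ψ + χ) - θ ψ))
      = ∑ y, u y * χ y * ∑ ψ : AddChar G ℂ, ψ y * z ^ (-(θ ψ)) := by
    simp_rw [Finset.mul_sum]
    rw [Finset.sum_comm]
    refine Finset.sum_congr rfl fun ψ _ => ?_
    rw [sub_eq_add_neg, zpow_add₀ hz0, ← htr, Finset.sum_mul]
    refine Finset.sum_congr rfl fun y _ => ?_
    rw [AddChar.add_apply]; ring
  rw [e1]
  simp_rw [hQ]
  have e2 : ∀ y, u y * χ y * ((Fintype.card G : ℂ) * (starRingEnd ℂ) (u y)) = χ y := by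
    intro y
    have h1 : u y * (starRingEnd ℂ) (u y) = 1 / (Fintype.card G : ℂ) := by
      rw [Complex.mul_conj, Complex.normSq_eq_norm_sq, hun]; push_cast; rfl
    calc u y * χ y * ((Fintype.card G : ℂ) * (starRingEnd ℂ) (u y))
        = χ y * ((Fintype.card G : ℂ) * (u y * (starRingEnd ℂ) (u y))) := by ring
      _ = χ y := by rw [h1]; field_simp
  rw [Finset.sum_congr rfl fun y _ => e2 y, AddChar.sum_eq_ite, if_neg hχ]

theorem two_rational (hG : ∀ g : G, g + g = 0) (C : Finset G) (θ : AddChar G ℂ → ℤ)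
    (hθ : ∀ ψ : AddChar G ℂ, (∑ c ∈ C, ψ c) = (θ ψ : ℂ)) (t : ℝ) (hn : 2 ≤ Fintype.card G)
    (hU : ∀ y, ‖(NormedSpace.exp ((Complex.I * (t : ℂ)) • adj C)) 0 y‖ ^ 2
      = 1 / (Fintype.card G : ℝ))
    (hreal : ∀ x : ℂ, aeval x (minpoly ℚ (Real.cos (4 * t))) = 0 → x.im = 0) :
    ∃ r : ℚ, t = (r : ℝ) * Real.pi := by
  classical
  obtain ⟨χ, hχ⟩ : ∃ χ : AddChar G ℂ, χ ≠ 0 := by
    have : Nontrivial G := Fintype.one_lt_card_iff_nontrivial.mp (by omega)
    obtain ⟨a, ha⟩ := exists_ne (0 : G)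
    obtain ⟨χ, h⟩ := AddChar.exists_apply_ne_zero.mpr ha
    exact ⟨χ, fun h0 => h (by rw [h0, AddChar.zero_apply])⟩
  have hcor := correlation_zero C θ hθ t hU χ hχ
  have hint := integral_of_uniform C θ hθ t hn hU
  obtain ⟨z, hz⟩ : ∃ z, z = Complex.exp (Complex.I * t) := ⟨_, rfl⟩
  rw [← hz] at hcor hint
  have hz0 : z ≠ 0 := by rw [hz]; exact Complex.exp_ne_zero _
  have hzQ : IsIntegral ℚ z := hint.tower_top
  have hfd : FiniteDimensional ℚ ↥(IntermediateField.adjoin ℚ {z}) :=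
    IntermediateField.adjoin.finiteDimensional hzQ
  have hnf : NumberField ↥(IntermediateField.adjoin ℚ {z}) := { to_charZero := inferInstance, to_finiteDimensional := hfd }
  obtain ⟨g, hg⟩ : ∃ g : ↥(IntermediateField.adjoin ℚ {z}), algebraMap _ ℂ g = z :=
    ⟨IntermediateField.AdjoinSimple.gen ℚ z, IntermediateField.AdjoinSimple.algebraMap_gen ℚ z⟩
  have hinj : Function.Injective (algebraMap ↥(IntermediateField.adjoin ℚ {z}) ℂ) :=
    RingHom.injective (algebraMap ↥(IntermediateField.adjoin ℚ {z}) ℂ)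
  have hg0 : g ≠ 0 := by
    rintro rfl
    rw [map_zero] at hg
    exact hz0 hg.symm
  have hgi : IsIntegral ℤ g := by
    rw [← isIntegral_algebraMap_iff hinj, hg]; exact hint
  have hcorK : (∑ ψ : AddChar G ℂ, g ^ (θ (ψ + χ) - θ ψ)) = 0 := by
    apply hinj
    rw [map_sum, map_zero, ← hcor]
    exact Finset.sum_congr rfl fun ψ _ => by rw [map_zpow₀, hg]
  obtain ⟨cK, hcK⟩ : ∃ cK : ↥(IntermediateField.adjoin ℚ {z}), cK = (g ^ 4 + (g ^ 4)⁻¹) / 2 := ⟨_, rfl⟩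
  have hcos : algebraMap ↥(IntermediateField.adjoin ℚ {z}) ℂ cK = algebraMap ℝ ℂ (Real.cos (4 * t)) := by
    rw [hcK, map_div₀, map_add, map_inv₀, map_pow, hg]
    have h1 : z ^ 4 = Complex.exp (((4 * t : ℝ) : ℂ) * Complex.I) := by
      rw [hz, ← Complex.exp_nat_mul]; congr 1; push_cast; ring
    have h2 : (z ^ 4)⁻¹ = Complex.exp (-((4 * t : ℝ) : ℂ) * Complex.I) := by
      rw [h1, ← Complex.exp_neg]; congr 1; ring
    rw [h2, h1]
    have h3 := Complex.two_cos (((4 * t : ℝ) : ℂ))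
    rw [← h3]
    have h4 : algebraMap ℝ ℂ (Real.cos (4 * t)) = Complex.cos ((4 * t : ℝ) : ℂ) := by
      rw [← Complex.ofReal_cos]; rfl
    rw [h4]
    have : algebraMap ↥(IntermediateField.adjoin ℚ {z}) ℂ 2 = 2 :=
      map_ofNat (algebraMap ↥(IntermediateField.adjoin ℚ {z}) ℂ) 2
    rw [this]; ring
  have hmin : minpoly ℚ cK = minpoly ℚ (Real.cos (4 * t)) := by
    rw [← minpoly.algebraMap_eq hinj cK, hcos, minpoly.algebraMap_eq (algebraMap ℝ ℂ).injective]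
  have hall : ∀ φ : ↥(IntermediateField.adjoin ℚ {z}) →+* ℂ, ‖φ g‖ = 1 := by
    intro φ
    have hx0 : φ g ≠ 0 := by
      intro h
      exact hg0 ((map_eq_zero φ).mp h)
    have h0 : (∑ ψ : AddChar G ℂ, (φ g) ^ (θ (ψ + χ) - θ ψ)) = 0 := by
      have := congrArg φ hcorK
      rw [map_sum, map_zero] at this
      rw [← this]
      exact Finset.sum_congr rfl fun ψ _ => by rw [map_zpow₀]
    have him : (φ cK).im = 0 := by
      apply hreal
      rw [← hmin]
      have h1 : aeval (φ.toRatAlgHom cK) (minpoly ℚ cK) = 0 := by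
        rw [aeval_algHom_apply, minpoly.aeval, map_zero]
      exact h1
    have hval : φ cK = ((φ g) ^ 4 + ((φ g) ^ 4)⁻¹) / 2 := by
      rw [hcK, map_div₀, map_add, map_inv₀, map_pow]
      congr 1
      exact map_ofNat φ 2
    refine norm_one_of_real_trace hG C θ hθ χ (φ g) hx0 h0 (2 * (φ cK).re) ?_
    have h1 : φ cK = ((φ cK).re : ℂ) := Complex.ext (by simp) (by simpa using him)
    push_cast
    rw [← h1, hval]; ring
  obtain ⟨N, hN, hgN⟩ := NumberField.Embeddings.pow_eq_one_of_norm_eq_one _ ℂ hgi hall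
  have hzN : z ^ N = 1 := by
    rw [← hg, ← map_pow, hgN, map_one]
  rw [hz, ← Complex.exp_nat_mul, Complex.exp_eq_one_iff] at hzN
  obtain ⟨k, hk⟩ := hzN
  have hN0 : (N : ℝ) ≠ 0 := by exact_mod_cast hN.ne'
  have hk' : (N : ℝ) * t = k * (2 * Real.pi) := by
    have := congrArg Complex.im hk
    simpa using this
  refine ⟨2 * k / N, ?_⟩
  push_cast
  field_simp
  linarith

end Pool.Agent.Run7.h121.UM
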