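import Pool.Agent.Run7.h121.UM.Unit
set_option autoImplicit false
open Finset

namespace Pool.Agent.Run7.h121.UM

variable {G : Type} [AddCommGroup G] [Fintype G] [DecidableEq G]

/-- a nonzero complex number with real trace in the closed interval has norm one -/
lemma norm_one_of_trace (p : ℂ) (hp : p ≠ 0) (X : ℝ) (h : p + p⁻¹ = X) (h1 : -2 ≤ X) (h2 : X ≤ 2) :
    ‖p‖ = 1 := by
  have hq : p * p + 1 = X * p := by
    have : (p + p⁻¹) * p = X * p := by rw [h]
    rw [add_mul, inv_mul_cancel₀ hp] at this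
    exact this
  have hre := congrArg Complex.re hq
  have him := congrArg Complex.im hq
  simp at hre him
  have hn : ‖p‖ ^ 2 = p.re * p.re + p.im * p.im := by
    rw [Complex.sq_norm, Complex.normSq_apply]
  have key : p.re * p.re + p.im * p.im = 1 := by
    by_cases hi : p.im = 0
    · rw [hi] at hre ⊢
      have e1 : p.re * p.re + 1 = X * p.re := by linarith
      have e2 : (p.re - 1) ^ 2 ≤ 0 ∨ (p.re + 1) ^ 2 ≤ 0 := by
        rcases le_total 0 p.re with h0 | h0
        · left; nlinarith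
        · right; nlinarith
      rcases e2 with e2 | e2
      · have : p.re - 1 = 0 := by
          have := le_antisymm e2 (sq_nonneg _)
          exact pow_eq_zero_iff (two_ne_zero) |>.mp this
        have : p.re = 1 := by linarith
        rw [this]; ring
      · have : p.re + 1 = 0 := by
          have := le_antisymm e2 (sq_nonneg _)
          exact pow_eq_zero_iff (two_ne_zero) |>.mp this
        have : p.re = -1 := by linarith
        rw [this]; ring
    · have e1 : 2 * p.re = X := by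
        have : p.im * (2 * p.re - X) = 0 := by linarith
        rcases mul_eq_zero.mp this with h | h
        · exact absurd h hi
        · linarith
      have e2 : p.re * p.re - p.im * p.im + 1 = 2 * p.re * p.re := by rw [e1]; linarith
      linarith
  have h3 : ‖p‖ ^ 2 = 1 := by rw [hn, key]
  have h4 : (‖p‖ - 1) * (‖p‖ + 1) = 0 := by ring_nf; linarith
  rcases mul_eq_zero.mp h4 with h | h
  · linarith
  · have := norm_nonneg p; linarith

/-- positivity of an even homogeneous form -/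
lemma form_ne_zero {ι : Type} (F : Finset ι) (f : ι → ℕ) (m : ℕ) (hf : ∀ i ∈ F, f i ≤ m)
    (hev : ∀ i ∈ F, Even (f i)) (i0 : ι) (hi0 : i0 ∈ F) (hf0 : f i0 = 0) (α β : ℂ) (a b : ℝ)
    (ha : α ^ 2 = a) (hb : β ^ 2 = b) (hab : (0 < a ∧ 0 < b) ∨ (a < 0 ∧ b < 0)) :
    (∑ i ∈ F, α ^ (m - f i) * β ^ (f i)) ≠ 0 := by
  have hα : α ≠ 0 := by
    rintro rfl
    have : (a : ℂ) = 0 := by rw [← ha]; simp
    have : a = 0 := by exact_mod_cast this
    rcases hab with h | h <;> linarith [h.1]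
  have hterm : ∀ i ∈ F, α ^ (m - f i) * β ^ (f i)
      = α ^ (m % 2) * (((a ^ (m / 2 - f i / 2) * b ^ (f i / 2) : ℝ)) : ℂ) := by
    intro i hi
    obtain ⟨r, hr⟩ := hev i hi
    have h1 := hf i hi
    have e1 : m - f i = m % 2 + 2 * (m / 2 - f i / 2) := by omega
    have e2 : f i = 2 * (f i / 2) := by omega
    rw [e1, pow_add, pow_mul, ha]
    conv_lhs => rw [show β ^ (f i) = β ^ (2 * (f i / 2)) by rw [← e2]]
    rw [pow_mul, hb]
    push_cast
    ring
  rw [Finset.sum_congr rfl hterm, ← Finset.mul_sum, ← Complex.ofReal_sum]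
  refine mul_ne_zero (pow_ne_zero _ hα) ?_
  rw [Ne, Complex.ofReal_eq_zero]
  rcases hab with ⟨h1, h2⟩ | ⟨h1, h2⟩
  · refine ne_of_gt (Finset.sum_pos' (fun i _ => by positivity) ⟨i0, hi0, by positivity⟩)
  · -- factor the sign
    have h3 : ∀ i ∈ F, a ^ (m / 2 - f i / 2) * b ^ (f i / 2)
        = (-1) ^ (m / 2) * ((-a) ^ (m / 2 - f i / 2) * (-b) ^ (f i / 2)) := by
      intro i hi
      have h1 := hf i hi
      have e1 : m / 2 = (m / 2 - f i / 2) + f i / 2 := by omega
      conv_rhs => rw [show ((-1 : ℝ)) ^ (m / 2) = (-1) ^ ((m / 2 - f i / 2) + f i / 2) by rw [← e1]]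
      rw [pow_add]
      have p1 : a ^ (m / 2 - f i / 2) = (-1) ^ (m / 2 - f i / 2) * (-a) ^ (m / 2 - f i / 2) := by
        rw [← mul_pow]; ring_nf
      have p2 : b ^ (f i / 2) = (-1) ^ (f i / 2) * (-b) ^ (f i / 2) := by
        rw [← mul_pow]; ring_nf
      rw [p1, p2]; ring
    rw [Finset.sum_congr rfl h3, ← Finset.mul_sum]
    have hna : 0 < -a := by linarith
    have hnb : 0 < -b := by linarith
    refine mul_ne_zero (pow_ne_zero _ (by norm_num)) (ne_of_gt ?_)
    exact Finset.sum_pos' (fun i _ => by positivity) ⟨i0, hi0, by positivity⟩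

/-- characters of a group of exponent two -/
lemma char_sign (hG : ∀ g : G, g + g = 0) (ψ : AddChar G ℂ) (g : G) : ψ g = 1 ∨ ψ g = -1 := by
  have : ψ g * ψ g = 1 := by rw [← AddChar.map_add_eq_mul, hG, AddChar.map_zero_eq_one]
  exact mul_self_eq_one_iff.mp this

lemma char_sum (ψ : AddChar G ℂ) (T : Finset G) : ψ (∑ c ∈ T, c) = ∏ c ∈ T, ψ c := by
  induction T using Finset.induction_on with
  | empty => simp
  | insert a s ha ih => rw [Finset.sum_insert ha, Finset.prod_insert ha, AddChar.map_add_eq_mul, ih]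

/-- the difference of eigenvalues -/
lemma correlation_expand (hG : ∀ g : G, g + g = 0) (C : Finset G) (θ : AddChar G ℂ → ℤ)
    (hθ : ∀ ψ : AddChar G ℂ, (∑ c ∈ C, ψ c) = (θ ψ : ℂ)) (χ : AddChar G ℂ) (x : ℂ) (hx : x ≠ 0) :
    (∑ ψ : AddChar G ℂ, x ^ (θ (ψ + χ) - θ ψ))
      = (Fintype.card G : ℂ) * ∑ T ∈ ((C.filter (fun c => χ c = -1)).powerset.filter
          (fun T => ∑ c ∈ T, c = 0)),
        ((x ^ 2 + (x ^ 2)⁻¹) / 2) ^ ((C.filter (fun c => χ c = -1)).card - T.card)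
          * (((x ^ 2)⁻¹ - x ^ 2) / 2) ^ T.card := by
  classical
  set D := C.filter (fun c => χ c = -1) with hD
  obtain ⟨α, hα⟩ : ∃ α, α = (x ^ 2 + (x ^ 2)⁻¹) / 2 := ⟨_, rfl⟩
  obtain ⟨β, hβ⟩ : ∃ β, β = ((x ^ 2)⁻¹ - x ^ 2) / 2 := ⟨_, rfl⟩
  rw [← hα, ← hβ]
  choose ε hε using fun (ψ : AddChar G ℂ) (c : G) =>
    (show ∃ e : ℤ, (e = 1 ∨ e = -1) ∧ ψ c = e from by
      rcases char_sign hG ψ c with h | h
      · exact ⟨1, Or.inl rfl, by rw [h]; simp⟩
      · exact ⟨-1, Or.inr rfl, by rw [h]; simp⟩)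
  have hdiff : ∀ ψ : AddChar G ℂ, θ (ψ + χ) - θ ψ = ∑ c ∈ D, (-2) * ε ψ c := by
    intro ψ
    have : ((θ (ψ + χ) - θ ψ : ℤ) : ℂ) = ((∑ c ∈ D, (-2) * ε ψ c : ℤ) : ℂ) := by
      push_cast
      rw [← hθ, ← hθ, ← Finset.sum_sub_distrib, hD, Finset.sum_filter]
      refine Finset.sum_congr rfl fun c _ => ?_
      rw [AddChar.add_apply]
      rcases char_sign hG χ c with h | h
      · rw [h, if_neg (by norm_num)]; ring
      · rw [h, if_pos rfl, ← (hε ψ c).2]; ring
    exact_mod_cast this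
  have hfac : ∀ (ψ : AddChar G ℂ) (c : G), x ^ ((-2) * ε ψ c) = α + β * ψ c := by
    intro ψ c
    obtain ⟨h1, h2⟩ := hε ψ c
    rcases h1 with h | h
    · rw [h2, h, hα, hβ]
      have : x ^ ((-2 : ℤ) * 1) = (x ^ 2)⁻¹ := by
        rw [mul_one, zpow_neg]; rfl
      rw [this]; push_cast; ring
    · rw [h2, h, hα, hβ]
      have : x ^ ((-2 : ℤ) * (-1)) = x ^ 2 := by
        rw [show ((-2 : ℤ) * (-1)) = 2 by norm_num]; rfl
      rw [this]; push_cast; ring
  have hprod : ∀ ψ : AddChar G ℂ, x ^ (θ (ψ + χ) - θ ψ)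
      = ∑ T ∈ D.powerset, α ^ (D.card - T.card) * β ^ T.card * ψ (∑ c ∈ T, c) := by
    intro ψ
    rw [hdiff]
    have e1 : x ^ (∑ c ∈ D, (-2) * ε ψ c) = ∏ c ∈ D, x ^ ((-2) * ε ψ c) := by
      induction D using Finset.induction_on with
      | empty => simp
      | insert a s ha ih => rw [Finset.sum_insert ha, Finset.prod_insert ha, zpow_add₀ hx, ih]
    rw [e1, Finset.prod_congr rfl fun c _ => hfac ψ c]
    have e2 : (∏ c ∈ D, (α + β * ψ c)) = ∏ c ∈ D, (β * ψ c + α) :=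
      Finset.prod_congr rfl fun c _ => add_comm _ _
    rw [e2, Finset.prod_add]
    refine Finset.sum_congr rfl fun T hT => ?_
    rw [Finset.prod_const, Finset.card_sdiff_of_subset (Finset.mem_powerset.mp hT),
      Finset.prod_mul_distrib, Finset.prod_const]
    have e3 : ψ (∑ c ∈ T, c) = ∏ c ∈ T, ψ c := char_sum ψ _
    rw [e3]; ring
  simp_rw [hprod]
  rw [Finset.sum_comm, Finset.mul_sum, Finset.sum_filter]
  refine Finset.sum_congr rfl fun T _ => ?_
  rw [← Finset.mul_sum, AddChar.sum_apply_eq_ite]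
  split_ifs with h
  · ring
  · ring

/-- a solution of one correlation equation with real trace of the fourth power lies on the circle -/
theorem norm_one_of_real_trace (hG : ∀ g : G, g + g = 0) (C : Finset G) (θ : AddChar G ℂ → ℤ)
    (hθ : ∀ ψ : AddChar G ℂ, (∑ c ∈ C, ψ c) = (θ ψ : ℂ)) (χ : AddChar G ℂ) (x : ℂ) (hx : x ≠ 0)
    (h0 : (∑ ψ : AddChar G ℂ, x ^ (θ (ψ + χ) - θ ψ)) = 0) (X : ℝ) (hX : x ^ 4 + (x ^ 4)⁻¹ = X) :
    ‖x‖ = 1 := by
  classical
  rw [correlation_expand hG C θ hθ χ x hx] at h0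
  have hn0 : (Fintype.card G : ℂ) ≠ 0 := by exact_mod_cast Fintype.card_ne_zero
  have h1 := (mul_eq_zero.mp h0).resolve_left hn0
  have hx2 : x ^ 2 ≠ 0 := pow_ne_zero _ hx
  have ha : ((x ^ 2 + (x ^ 2)⁻¹) / 2) ^ 2 = (((X + 2) / 4 : ℝ) : ℂ) := by
    push_cast; rw [← hX]; field_simp; ring
  have hb : (((x ^ 2)⁻¹ - x ^ 2) / 2) ^ 2 = (((X - 2) / 4 : ℝ) : ℂ) := by
    push_cast; rw [← hX]; field_simp; ring
  have hcond : ¬ ((0 < (X + 2) / 4 ∧ 0 < (X - 2) / 4) ∨ ((X + 2) / 4 < 0 ∧ (X - 2) / 4 < 0)) := by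
    intro hab
    refine form_ne_zero ((C.filter (fun c => χ c = -1)).powerset.filter
          (fun T => ∑ c ∈ T, c = 0)) Finset.card (C.filter (fun c => χ c = -1)).card ?_ ?_ ∅ ?_
          Finset.card_empty _ _ _ _ ha hb hab h1
    · intro T hT
      exact Finset.card_le_card (Finset.mem_powerset.mp (Finset.mem_filter.mp hT).1)
    · intro T hT
      obtain ⟨hT1, hT2⟩ := Finset.mem_filter.mp hT
      have e1 : χ (∑ c ∈ T, c) = (-1) ^ T.card := by
        rw [char_sum, Finset.prod_congr rfl (fun c hc =>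
          (Finset.mem_filter.mp (Finset.mem_powerset.mp hT1 hc)).2), Finset.prod_const]
      rw [hT2, AddChar.map_zero_eq_one] at e1
      by_contra hodd
      rw [Nat.not_even_iff_odd] at hodd
      rw [hodd.neg_one_pow] at e1
      norm_num at e1
    · simp
  have hX1 : -2 ≤ X := by
    by_contra h
    exact hcond (Or.inr ⟨by linarith, by linarith⟩)
  have hX2 : X ≤ 2 := by
    by_contra h
    exact hcond (Or.inl ⟨by linarith, by linarith⟩)
  have h4 := norm_one_of_trace (x ^ 4) (pow_ne_zero _ hx) X hX hX1 hX2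
  rw [norm_pow] at h4
  exact (pow_eq_one_iff_of_nonneg (norm_nonneg x) (by norm_num)).mp h4

end Pool.Agent.Run7.h121.UM
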