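import Pool.Agent.Run7.h121.UM.Walk
set_option autoImplicit false
open Finset Polynomial

namespace Pool.Agent.Run7.h121.UM

variable {G : Type} [AddCommGroup G] [Fintype G] [DecidableEq G]

/-- an element lying in the ring generated by its inverse over the algebraic integers is integral -/
lemma integral_of_mem_adjoin_inv (z : ℂ) (hz : z ≠ 0)
    (h : z ∈ Algebra.adjoin ↥(integralClosure ℤ ℂ) {z⁻¹}) : IsIntegral ℤ z := by
  rw [Algebra.adjoin_singleton_eq_range_aeval] at h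
  obtain ⟨p, hp⟩ := h
  have hp' : aeval z⁻¹ p = z := hp
  refine isIntegral_trans (R := ℤ) (A := ↥(integralClosure ℤ ℂ)) z ?_
  refine ⟨X ^ (p.natDegree + 1) - p.reverse, ?_, ?_⟩
  · refine monic_X_pow_sub ?_
    refine lt_of_le_of_lt degree_le_natDegree ?_
    have := reverse_natDegree_le p
    exact_mod_cast Nat.lt_succ_of_le this
  · have hinv : Invertible (z⁻¹) := invertibleOfNonzero (inv_ne_zero hz)
    have h1 := eval₂_reverse_mul_pow (algebraMap ↥(integralClosure ℤ ℂ) ℂ) (z⁻¹) p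
    rw [invOf_eq_inv, inv_inv] at h1
    have h2 : eval₂ (algebraMap ↥(integralClosure ℤ ℂ) ℂ) (z⁻¹) p = z := hp'
    rw [h2] at h1
    rw [eval₂_sub, eval₂_pow, eval₂_X]
    have h3 : eval₂ (algebraMap ↥(integralClosure ℤ ℂ) ℂ) z p.reverse = z * z ^ p.natDegree := by
      have h4 := congrArg (fun x => x * z ^ p.natDegree) h1
      rw [mul_assoc, ← mul_pow, inv_mul_cancel₀ hz, one_pow, mul_one] at h4
      exact h4
    rw [h3, pow_succ]
    ring

lemma char_integral (ψ : AddChar G ℂ) (x : G) : IsIntegral ℤ (ψ x) := by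
  refine IsIntegral.of_pow (n := Fintype.card G) Fintype.card_pos ?_
  rw [← AddChar.map_nsmul_eq_pow, card_nsmul_eq_zero, AddChar.map_zero_eq_one]
  exact isIntegral_one

theorem integral_of_uniform (C : Finset G) (θ : AddChar G ℂ → ℤ)
    (hθ : ∀ ψ : AddChar G ℂ, (∑ c ∈ C, ψ c) = (θ ψ : ℂ)) (t : ℝ) (hn : 2 ≤ Fintype.card G)
    (hU : ∀ y, ‖(NormedSpace.exp ((Complex.I * (t : ℂ)) • adj C)) 0 y‖ ^ 2
      = 1 / (Fintype.card G : ℝ)) :
    IsIntegral ℤ (Complex.exp (Complex.I * t)) := by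
  classical
  have hn0 : (Fintype.card G : ℂ) ≠ 0 := by
    have : Fintype.card G ≠ 0 := by omega
    exact_mod_cast this
  have hn0' : (Fintype.card G : ℝ) ≠ 0 := by
    have : Fintype.card G ≠ 0 := by omega
    exact_mod_cast this
  obtain ⟨z, hz⟩ : ∃ z, z = Complex.exp (Complex.I * t) := ⟨_, rfl⟩
  rw [← hz]
  have hz0 : z ≠ 0 := by rw [hz]; exact Complex.exp_ne_zero _
  have hzn : ‖z‖ = 1 := by rw [hz, mul_comm]; exact Complex.norm_exp_ofReal_mul_I t
  have hexp : ∀ m : ℤ, Complex.exp (Complex.I * t * m) = z ^ m := by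
    intro m
    rw [hz, ← Complex.exp_int_mul, mul_comm]
  obtain ⟨u, hu⟩ : ∃ u : G → ℂ, u = fun y => (NormedSpace.exp ((Complex.I * (t : ℂ)) • adj C)) 0 y := ⟨_, rfl⟩
  have hun : ∀ y, ‖u y‖ ^ 2 = 1 / (Fintype.card G : ℝ) := by intro y; rw [hu]; exact hU y
  have htr : ∀ ψ : AddChar G ℂ, (∑ y, u y * ψ y) = z ^ (θ ψ) := by
    intro ψ
    have := row_transform C t ψ
    rw [hθ ψ, hexp] at this
    rw [hu]; exact this
  have hinv : ∀ y, (∑ ψ : AddChar G ℂ, ψ (-y) * z ^ (θ ψ)) = (Fintype.card G : ℂ) * u y := by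
    intro y
    have e1 : (∑ ψ : AddChar G ℂ, ψ (-y) * z ^ (θ ψ)) = ∑ x, u x * ∑ ψ : AddChar G ℂ, ψ (x - y) := by
      simp_rw [← htr, Finset.mul_sum]
      rw [Finset.sum_comm]
      refine Finset.sum_congr rfl fun x _ => Finset.sum_congr rfl fun ψ _ => ?_
      rw [sub_eq_add_neg, AddChar.map_add_eq_mul]; ring
    rw [e1]
    simp_rw [AddChar.sum_apply_eq_ite, sub_eq_zero]
    simp [mul_comm]
  have hzc : ∀ m : ℤ, (starRingEnd ℂ) (z ^ m) = z ^ (-m) := by
    intro m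
    rw [map_zpow₀, ← Complex.inv_eq_conj hzn, inv_zpow, zpow_neg]
  obtain ⟨P, hP⟩ : ∃ P : G → ℂ, P = fun y => ∑ ψ : AddChar G ℂ, ψ (-y) * z ^ (θ ψ) := ⟨_, rfl⟩
  obtain ⟨Q, hQ⟩ : ∃ Q : G → ℂ, Q = fun y => ∑ ψ : AddChar G ℂ, ψ y * z ^ (-(θ ψ)) := ⟨_, rfl⟩
  have hPu : ∀ y, P y = (Fintype.card G : ℂ) * u y := by intro y; rw [hP]; exact hinv y
  have hPc : ∀ y, (starRingEnd ℂ) (P y) = Q y := by
    intro y
    rw [hP, hQ]
    simp only [map_sum, map_mul]
    refine Finset.sum_congr rfl fun ψ _ => ?_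
    rw [hzc, ← AddChar.map_neg_eq_conj, neg_neg]
  have hPQ : ∀ y, P y * Q y = (Fintype.card G : ℂ) := by
    intro y
    rw [← hPc, Complex.mul_conj, Complex.normSq_eq_norm_sq, hPu, norm_mul, mul_pow, hun]
    rw [Complex.norm_natCast]
    push_cast
    field_simp
  have hP0 : ∀ y, P y ≠ 0 := by
    intro y h
    have := hPQ y
    rw [h, zero_mul] at this
    exact hn0 this.symm
  have hinv2 : ∀ χ : AddChar G ℂ, (∑ y, χ (-y) * Q y) = (Fintype.card G : ℂ) * z ^ (-(θ χ)) := by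
    intro χ
    have e1 : (∑ y, χ (-y) * Q y) = ∑ ψ : AddChar G ℂ, z ^ (-(θ ψ)) * ∑ y, (ψ - χ) y := by
      rw [hQ]
      simp_rw [Finset.mul_sum]
      rw [Finset.sum_comm]
      refine Finset.sum_congr rfl fun ψ _ => Finset.sum_congr rfl fun y _ => ?_
      rw [AddChar.sub_apply']
      rw [AddChar.map_neg_eq_inv]
      ring
    rw [e1]
    simp_rw [AddChar.sum_eq_ite, sub_eq_zero]
    simp [mul_comm]
  have hθ0 : θ 0 = C.card := by
    have := hθ 0
    simp only [AddChar.zero_apply, Finset.sum_const, nsmul_eq_mul, mul_one] at this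
    exact_mod_cast this.symm
  have hre : ∀ ψ : AddChar G ℂ, (θ ψ : ℝ) = ∑ c ∈ C, (ψ c).re := by
    intro ψ
    have := congrArg Complex.re (hθ ψ)
    rw [Complex.re_sum, Complex.intCast_re] at this
    exact this.symm
  have hre1 : ∀ (ψ : AddChar G ℂ) (c : G), (ψ c).re ≤ 1 := by
    intro ψ c
    refine (Complex.re_le_norm _).trans ?_
    rw [AddChar.norm_apply]
  have hle : ∀ ψ : AddChar G ℂ, θ ψ ≤ C.card := by
    intro ψ
    have : (θ ψ : ℝ) ≤ (C.card : ℝ) := by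
      rw [hre]
      refine (Finset.sum_le_sum fun c _ => hre1 ψ c).trans ?_
      simp
    exact_mod_cast this
  have hlt : ∀ ψ : AddChar G ℂ, ψ ≠ 0 → θ ψ < C.card := by
    intro ψ hψ
    refine lt_of_le_of_ne (hle ψ) fun heq => hψ ?_
    have hsum : ∑ c ∈ C, (1 - (ψ c).re) = 0 := by
      rw [Finset.sum_sub_distrib, ← hre, heq]; simp
    have hone : ∀ c ∈ C, ψ c = 1 := by
      intro c hc
      have h1 := (Finset.sum_eq_zero_iff_of_nonneg (fun c _ => by have := hre1 ψ c; linarith)).mp hsum c hc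
      have h2 : (ψ c).re = 1 := by linarith
      have h3 : ‖ψ c‖ = 1 := AddChar.norm_apply ψ c
      have h4 : (ψ c).re ^ 2 + (ψ c).im ^ 2 = 1 := by
        have := Complex.sq_norm (ψ c)
        rw [h3, Complex.normSq_apply] at this
        nlinarith
      have h5 : (ψ c).im = 0 := by
        have : (ψ c).im ^ 2 = 0 := by rw [h2] at h4; linarith
        exact pow_eq_zero_iff (two_ne_zero) |>.mp this
      exact Complex.ext (by simpa using h2) (by simpa using h5)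
    have hper : ∀ ψ' : AddChar G ℂ, θ (ψ' + ψ) = θ ψ' := by
      intro ψ'
      have : ((θ (ψ' + ψ) : ℤ) : ℂ) = θ ψ' := by
        rw [← hθ, ← hθ]
        refine Finset.sum_congr rfl fun c hc => ?_
        rw [AddChar.add_apply, hone c hc, mul_one]
      exact_mod_cast this
    have hone' : ∀ y, ψ (-y) = 1 := by
      intro y
      have e1 : P y = P y * ψ (-y) := by
        conv_lhs => rw [hP]
        show (∑ ψ' : AddChar G ℂ, ψ' (-y) * z ^ (θ ψ')) = _
        rw [← Equiv.sum_comp (Equiv.addRight ψ)]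
        rw [hP]
        simp only [Equiv.coe_addRight]
        rw [Finset.sum_mul]
        refine Finset.sum_congr rfl fun ψ' _ => ?_
        rw [hper, AddChar.add_apply]; ring
      have e2 : P y * (ψ (-y) - 1) = 0 := by rw [mul_sub, ← e1]; ring
      rcases mul_eq_zero.mp e2 with h | h
      · exact absurd h (hP0 y)
      · exact sub_eq_zero.mp h
    ext y
    have := hone' (-y)
    rw [neg_neg] at this
    rw [this, AddChar.zero_apply]
  -- exponents
  obtain ⟨e, he⟩ : ∃ e : AddChar G ℂ → ℕ, ∀ ψ, (e ψ : ℤ) = C.card - θ ψ :=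
    ⟨fun ψ => (C.card - θ ψ).toNat, fun ψ => Int.toNat_of_nonneg (by have := hle ψ; omega)⟩
  have he0 : e 0 = 0 := by have := he 0; rw [hθ0] at this; omega
  have he1 : ∀ ψ : AddChar G ℂ, ψ ≠ 0 → 1 ≤ e ψ := by
    intro ψ hψ; have h1 := he ψ; have h2 := hlt ψ hψ; omega
  obtain ⟨w, hw⟩ : ∃ w, w = z⁻¹ := ⟨_, rfl⟩
  have hwz : w * z = 1 := by rw [hw]; exact inv_mul_cancel₀ hz0
  have hw0 : w ≠ 0 := by rw [hw]; exact inv_ne_zero hz0
  have hzθ : ∀ ψ : AddChar G ℂ, z ^ (θ ψ) = z ^ C.card * w ^ (e ψ) := by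
    intro ψ
    have : θ ψ = (C.card : ℤ) - (e ψ : ℤ) := by have := he ψ; omega
    rw [this, zpow_sub₀ hz0, zpow_natCast, zpow_natCast, hw, inv_pow, div_eq_mul_inv]
  obtain ⟨V, hV⟩ : ∃ V : G → ℂ, V = fun y => ∑ ψ : AddChar G ℂ, ψ (-y) * w ^ (e ψ) := ⟨_, rfl⟩
  have hPV : ∀ y, P y = z ^ C.card * V y := by
    intro y
    rw [hP, hV]
    simp only [Finset.mul_sum]
    refine Finset.sum_congr rfl fun ψ _ => ?_
    rw [hzθ]; ring
  have hV0 : ∀ y, V y ≠ 0 := by
    intro y h; apply hP0 y; rw [hPV, h, mul_zero]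
  -- the ring
  obtain ⟨S, hS⟩ : ∃ S, S = Algebra.adjoin ↥(integralClosure ℤ ℂ) {w} := ⟨_, rfl⟩
  have hwS : w ∈ S := by rw [hS]; exact Algebra.self_mem_adjoin_singleton _ _
  have hcS : ∀ (ψ : AddChar G ℂ) (y : G), ψ y ∈ S := by
    intro ψ y
    exact S.algebraMap_mem (⟨ψ y, char_integral ψ y⟩ : ↥(integralClosure ℤ ℂ))
  have hVS : ∀ y, ∃ s ∈ S, V y = 1 + w * s := by
    intro y
    refine ⟨∑ ψ ∈ (Finset.univ : Finset (AddChar G ℂ)).erase 0, ψ (-y) * w ^ (e ψ - 1), ?_, ?_⟩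
    · exact S.sum_mem fun ψ _ => S.mul_mem (hcS _ _) (S.pow_mem hwS _)
    · rw [hV]
      show (∑ ψ : AddChar G ℂ, ψ (-y) * w ^ (e ψ)) = _
      rw [← Finset.add_sum_erase _ _ (Finset.mem_univ (0 : AddChar G ℂ)), he0, Finset.mul_sum]
      rw [AddChar.zero_apply, pow_zero, mul_one]
      congr 1
      refine Finset.sum_congr rfl fun ψ hψ => ?_
      have h1 := he1 ψ (Finset.ne_of_mem_erase hψ)
      obtain ⟨j, hj⟩ : ∃ j, e ψ = j + 1 := ⟨e ψ - 1, by omega⟩
      rw [hj, Nat.add_sub_cancel, pow_succ]; ring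
  have hVmem : ∀ y, V y ∈ S := by
    intro y
    obtain ⟨s, hs, h⟩ := hVS y
    rw [h]; exact S.add_mem S.one_mem (S.mul_mem hwS hs)
  have hprod : ∃ s ∈ S, (∏ y, V y) = 1 + w * s := by
    refine Finset.prod_induction V (fun x => ∃ s ∈ S, x = 1 + w * s) ?_ ⟨0, S.zero_mem, by simp⟩
      (fun y _ => hVS y)
    rintro a b ⟨s, hs, rfl⟩ ⟨s', hs', rfl⟩
    exact ⟨s + s' + w * (s * s'), S.add_mem (S.add_mem hs hs') (S.mul_mem hwS (S.mul_mem hs hs')), by ring⟩
  -- a nontrivial character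
  obtain ⟨χ, hχ⟩ : ∃ χ : AddChar G ℂ, χ ≠ 0 := by
    have : Nontrivial G := Fintype.one_lt_card_iff_nontrivial.mp (by omega)
    obtain ⟨a, ha⟩ := exists_ne (0 : G)
    obtain ⟨χ, h⟩ := AddChar.exists_apply_ne_zero.mpr ha
    exact ⟨χ, fun h0 => h (by rw [h0, AddChar.zero_apply])⟩
  have hQV : ∀ y, Q y = (Fintype.card G : ℂ) * w ^ C.card / V y := by
    intro y
    rw [eq_div_iff (hV0 y)]
    have h1 := hPQ y
    rw [hPV] at h1
    have h2 : w ^ C.card * z ^ C.card = 1 := by rw [← mul_pow, hwz, one_pow]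
    calc Q y * V y = (w ^ C.card * z ^ C.card) * (Q y * V y) := by rw [h2, one_mul]
      _ = w ^ C.card * (z ^ C.card * V y * Q y) := by ring
      _ = _ := by rw [h1]; ring
  have hkey : w ^ (e χ) * ∑ y, χ (-y) * ∏ y' ∈ Finset.univ.erase y, V y' = ∏ y, V y := by
    have h1 := hinv2 χ
    simp_rw [hQV] at h1
    have h2 : z ^ (-(θ χ)) = w ^ C.card * z ^ (e χ) := by
      have : -(θ χ) = (e χ : ℤ) - (C.card : ℤ) := by have := he χ; omega
      rw [this, zpow_sub₀ hz0, zpow_natCast, zpow_natCast, hw, inv_pow, div_eq_mul_inv, mul_comm]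
    rw [h2] at h1
    have h3 : (∑ y, χ (-y) / V y) = z ^ (e χ) := by
      have h4 : (Fintype.card G : ℂ) * w ^ C.card * (∑ y, χ (-y) / V y)
          = (Fintype.card G : ℂ) * w ^ C.card * z ^ (e χ) := by
        rw [mul_assoc _ _ (z ^ (e χ)), ← h1, Finset.mul_sum]
        refine Finset.sum_congr rfl fun y _ => ?_
        ring
      exact mul_left_cancel₀ (mul_ne_zero hn0 (pow_ne_zero _ hw0)) h4
    have h5 : (∑ y, χ (-y) * ∏ y' ∈ Finset.univ.erase y, V y') = (∏ y, V y) * ∑ y, χ (-y) / V y := by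
      rw [Finset.mul_sum]
      refine Finset.sum_congr rfl fun y _ => ?_
      rw [← Finset.mul_prod_erase _ _ (Finset.mem_univ y)]
      field_simp [hV0 y]
    rw [h5, h3]
    calc w ^ e χ * ((∏ y, V y) * z ^ e χ) = (∏ y, V y) * (w * z) ^ e χ := by rw [mul_pow]; ring
      _ = _ := by rw [hwz, one_pow, mul_one]
  obtain ⟨s', hs', hs'e⟩ := hprod
  obtain ⟨j, hj⟩ : ∃ j, e χ = j + 1 := ⟨e χ - 1, by have := he1 χ hχ; omega⟩
  have hfin : z = w ^ j * (∑ y, χ (-y) * ∏ y' ∈ Finset.univ.erase y, V y') - s' := by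
    rw [hs'e, hj] at hkey
    have h1 : w * (w ^ j * (∑ y, χ (-y) * ∏ y' ∈ Finset.univ.erase y, V y') - s') = 1 := by
      rw [mul_sub]
      have : w * (w ^ j * (∑ y, χ (-y) * ∏ y' ∈ Finset.univ.erase y, V y')) = 1 + w * s' := by
        rw [← hkey, pow_succ]; ring
      rw [this]; ring
    have h2 := congrArg (fun x => z * x) h1
    simp only [mul_one] at h2
    rw [← mul_assoc, mul_comm z w, hwz, one_mul] at h2
    exact h2.symm
  refine integral_of_mem_adjoin_inv z hz0 ?_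
  rw [← hw, ← hS, hfin]
  refine S.sub_mem (S.mul_mem (S.pow_mem hwS _) (S.sum_mem fun y _ => S.mul_mem (hcS _ _) ?_)) hs'
  exact S.prod_mem fun y' _ => hVmem y'

end Pool.Agent.Run7.h121.UM
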