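import Mathlib
set_option autoImplicit false
open Finset

namespace Pool.Agent.Run7.h121.UM

section Exp
attribute [local instance] Matrix.linftyOpNormedRing Matrix.linftyOpNormedAlgebra

variable {G : Type} [Fintype G] [DecidableEq G]

lemma pow_mulVec (M : Matrix G G ℂ) (v : G → ℂ) (μ : ℂ) (h : M.mulVec v = μ • v) (n : ℕ) :
    (M ^ n).mulVec v = (μ ^ n) • v := by
  induction n with
  | zero => simp
  | succ n ih =>
    rw [pow_succ, ← Matrix.mulVec_mulVec, h, Matrix.mulVec_smul, ih, smul_smul, pow_succ, mul_comm]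

lemma exp_mulVec (M : Matrix G G ℂ) (v : G → ℂ) (μ : ℂ) (h : M.mulVec v = μ • v) :
    (NormedSpace.exp M).mulVec v = (Complex.exp μ) • v := by
  have hs : HasSum (fun n : ℕ => ((n.factorial : ℂ)⁻¹) • M ^ n) (NormedSpace.exp M) :=
    NormedSpace.exp_series_hasSum_exp' (𝕂 := ℂ) M
  have h1 := hs.map (AddMonoidHom.mk' (fun A : Matrix G G ℂ => A.mulVec v)
    (fun A B => Matrix.add_mulVec A B v))
    (by
      show Continuous (fun A : Matrix G G ℂ => A.mulVec v)
      exact continuous_id.matrix_mulVec continuous_const)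
  have hs2 : HasSum (fun n : ℕ => ((n.factorial : ℂ)⁻¹) • μ ^ n) (NormedSpace.exp μ) :=
    NormedSpace.exp_series_hasSum_exp' (𝕂 := ℂ) μ
  have h2 := hs2.smul_const v
  rw [Complex.exp_eq_exp_ℂ]
  refine h1.unique ?_
  convert h2 using 1
  funext n
  show (((n.factorial : ℂ)⁻¹) • M ^ n).mulVec v = _
  rw [Matrix.smul_mulVec, pow_mulVec M v μ h n, smul_eq_mul, smul_smul]

end Exp

variable {G : Type} [AddCommGroup G] [Fintype G] [DecidableEq G]

/-- adjacency matrix -/
noncomputable def adj (C : Finset G) : Matrix G G ℂ :=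
  Matrix.of fun x y => if y - x ∈ C then (1 : ℂ) else 0

lemma adj_mulVec (C : Finset G) (ψ : AddChar G ℂ) :
    (adj C).mulVec (fun x => ψ x) = (∑ c ∈ C, ψ c) • (fun x => ψ x) := by
  funext x
  simp only [Matrix.mulVec, dotProduct, adj, Matrix.of_apply, Pi.smul_apply, smul_eq_mul]
  have : (∑ y, (if y - x ∈ C then (1 : ℂ) else 0) * ψ y) = ∑ c, (if c ∈ C then (1:ℂ) else 0) * ψ (c + x) := by
    refine (Equiv.sum_comp (Equiv.addRight x) _).symm.trans ?_
    refine Finset.sum_congr rfl fun c _ => ?_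
    simp
  rw [this, Finset.sum_mul]
  rw [← Finset.sum_filter_add_sum_filter_not Finset.univ (fun c => c ∈ C)]
  have e1 : (∑ c ∈ Finset.univ.filter (fun c => ¬ c ∈ C), (if c ∈ C then (1:ℂ) else 0) * ψ (c + x)) = 0 := by
    refine Finset.sum_eq_zero fun c hc => ?_
    rw [if_neg (Finset.mem_filter.mp hc).2, zero_mul]
  rw [e1, add_zero, Finset.filter_mem_eq_inter, Finset.univ_inter]
  refine Finset.sum_congr rfl fun c hc => ?_
  rw [if_pos hc, one_mul, AddChar.map_add_eq_mul]

/-- transform of row zero of the walk matrix -/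
lemma row_transform (C : Finset G) (t : ℝ) (ψ : AddChar G ℂ) :
    (∑ y, (NormedSpace.exp ((Complex.I * (t : ℂ)) • adj C)) 0 y * ψ y)
      = Complex.exp (Complex.I * t * ∑ c ∈ C, ψ c) := by
  have h : ((Complex.I * (t : ℂ)) • adj C).mulVec (fun x => ψ x)
      = (Complex.I * t * ∑ c ∈ C, ψ c) • (fun x => ψ x) := by
    rw [Matrix.smul_mulVec, adj_mulVec, smul_smul]
  have h2 := congrFun (exp_mulVec _ _ _ h) 0
  simpa [Matrix.mulVec, dotProduct] using h2

end Pool.Agent.Run7.h121.UM
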